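import Mathlib

/-! # The remainder of a digamma approximation is not completely monotonic -/

set_option autoImplicit false

namespace Pool.Agent.Results.MP_d2a7e5_an.NotCompletelyMonotonic

open Filter Topology

/-- the digamma function `Γ' / Γ` -/
noncomputable def psi (x : ℝ) : ℝ := deriv Real.Gamma x / Real.Gamma x

/-- the approximation `𝓛(x, a)` -/
noncomputable def Lf (x a : ℝ) : ℝ :=
  1 / (90 * a ^ 2 + 2) * Real.log (x ^ 2 + x + (3 * a + 1) / 3) +
    45 * a ^ 2 / (90 * a ^ 2 + 2) * Real.log (x ^ 2 + x + (15 * a - 1) / (45 * a))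

/-- the constant `a₁ = (40 + 3 √205) / 105` -/
noncomputable def a₁ : ℝ := (40 + 3 * Real.sqrt 205) / 105

/-- the function `G(x) = 𝓛(x, a₁) - ψ(x + 1)` -/
noncomputable def G (x : ℝ) : ℝ := Lf x a₁ - psi (x + 1)

/-! ### Analyticity of the digamma function -/

theorem analyticAt_Gamma (x : ℝ) (hx : 0 < x) : AnalyticAt ℝ Real.Gamma x := by
  have h1 : AnalyticAt ℂ Complex.Gamma (x : ℂ) := by
    have ho : IsOpen {s : ℂ | 0 < s.re} := isOpen_lt continuous_const Complex.continuous_re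
    have hd : DifferentiableOn ℂ Complex.Gamma {s : ℂ | 0 < s.re} := by
      intro s hs
      apply (Complex.differentiableAt_Gamma s _).differentiableWithinAt
      intro m h
      rw [Set.mem_ofPred_eq, h] at hs
      simp at hs
      have := Nat.cast_nonneg (α := ℝ) m
      linarith
    exact hd.analyticAt (ho.mem_nhds (by simpa using hx))
  have h2 := h1.re_ofReal
  have h3 : (fun x : ℝ => (Complex.Gamma (x : ℂ)).re) = Real.Gamma := by
    funext y
    rw [Complex.Gamma_ofReal, Complex.ofReal_re]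
  rw [← h3]
  exact h2

theorem analyticAt_psi (x : ℝ) (hx : 0 < x) : AnalyticAt ℝ psi x :=
  (analyticAt_Gamma x hx).deriv.div (analyticAt_Gamma x hx) (Real.Gamma_pos_of_pos hx).ne'

theorem psi_add_one (x : ℝ) (hx : 0 < x) : psi (x + 1) = psi x + x⁻¹ := by
  have h1 : (fun y : ℝ => Real.Gamma (y + 1)) =ᶠ[𝓝 x] (fun y => y * Real.Gamma y) := by
    filter_upwards [lt_mem_nhds hx] with y hy
    exact Real.Gamma_add_one hy.ne'
  have h2 := h1.deriv_eq
  have h3 : deriv (fun y : ℝ => Real.Gamma (y + 1)) x = deriv Real.Gamma (x + 1) :=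
    deriv_comp_add_const _ _ _
  have hd : DifferentiableAt ℝ Real.Gamma x := (analyticAt_Gamma x hx).differentiableAt
  have h4 : deriv (fun y : ℝ => y * Real.Gamma y) x = Real.Gamma x + x * deriv Real.Gamma x := by
    have := (hasDerivAt_id x).mul hd.hasDerivAt
    have h5 := this.deriv
    simp only [id, one_mul] at h5
    exact h5
  unfold psi
  rw [← h3, h2, h4, Real.Gamma_add_one hx.ne']
  have hG := (Real.Gamma_pos_of_pos hx).ne'
  field_simp
  ring

/-! ### The logarithms -/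

section logs

variable (B : ℝ)

noncomputable def f0 (x : ℝ) : ℝ := Real.log ((x + 1 / 2) ^ 2 + B)
noncomputable def f1 (x : ℝ) : ℝ := 2 * (x + 1 / 2) / ((x + 1 / 2) ^ 2 + B)
noncomputable def f2 (x : ℝ) : ℝ := 2 * (B - (x + 1 / 2) ^ 2) / ((x + 1 / 2) ^ 2 + B) ^ 2
noncomputable def f3 (x : ℝ) : ℝ :=
  4 * (x + 1 / 2) * ((x + 1 / 2) ^ 2 - 3 * B) / ((x + 1 / 2) ^ 2 + B) ^ 3
noncomputable def f4 (x : ℝ) : ℝ :=
  -12 * ((x + 1 / 2) ^ 4 - 6 * B * (x + 1 / 2) ^ 2 + B ^ 2) / ((x + 1 / 2) ^ 2 + B) ^ 4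

theorem hq (x : ℝ) : HasDerivAt (fun x : ℝ => (x + 1 / 2) ^ 2 + B) (2 * (x + 1 / 2)) x := by
  have h := (((hasDerivAt_id x).add_const (1 / 2)).pow 2).add_const B
  refine h.congr_deriv ?_
  simp

theorem hz (x : ℝ) : HasDerivAt (fun x : ℝ => x + 1 / 2) 1 x :=
  (hasDerivAt_id x).add_const (1 / 2)

variable {B}

theorem d0 (hB : 0 < B) (x : ℝ) : HasDerivAt (f0 B) (f1 B x) x := by
  have hpos : 0 < (x + 1 / 2) ^ 2 + B := by positivity
  exact (hq B x).log hpos.ne'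

theorem d1 (hB : 0 < B) (x : ℝ) : HasDerivAt (f1 B) (f2 B x) x := by
  have hpos : 0 < (x + 1 / 2) ^ 2 + B := by positivity
  have h := ((hz x).const_mul 2).div (hq B x) hpos.ne'
  refine h.congr_deriv ?_
  unfold f2
  congr 1
  ring

theorem d2 (hB : 0 < B) (x : ℝ) : HasDerivAt (f2 B) (f3 B x) x := by
  have hpos : 0 < (x + 1 / 2) ^ 2 + B := by positivity
  have h := ((((hz x).pow 2).const_sub B).const_mul 2).div ((hq B x).pow 2) (pow_pos hpos 2).ne'
  refine h.congr_deriv ?_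
  unfold f3
  simp only [Pi.pow_apply, Nat.add_one_sub_one, Nat.cast_ofNat]
  rw [div_eq_div_iff (pow_pos (pow_pos hpos 2) 2).ne' (pow_pos hpos 3).ne']
  ring

theorem d3 (hB : 0 < B) (x : ℝ) : HasDerivAt (f3 B) (f4 B x) x := by
  have hpos : 0 < (x + 1 / 2) ^ 2 + B := by positivity
  have h := (((hz x).const_mul 4).mul (((hz x).pow 2).sub_const (3 * B))).div ((hq B x).pow 3)
    (pow_pos hpos 3).ne'
  refine h.congr_deriv ?_
  unfold f4
  simp only [Pi.pow_apply, Pi.mul_apply, Nat.add_one_sub_one, Nat.cast_ofNat]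
  rw [div_eq_div_iff (pow_pos (pow_pos hpos 3) 2).ne' (pow_pos hpos 4).ne']
  ring

theorem iter4 (hB : 0 < B) : iteratedDeriv 4 (f0 B) = f4 B := by
  rw [iteratedDeriv_succ', iteratedDeriv_succ', iteratedDeriv_succ', iteratedDeriv_succ',
    iteratedDeriv_zero, funext fun x => (d0 hB x).deriv, funext fun x => (d1 hB x).deriv,
    funext fun x => (d2 hB x).deriv, funext fun x => (d3 hB x).deriv]

theorem analyticAt_f0 (hB : 0 < B) (x : ℝ) : AnalyticAt ℝ (f0 B) x := by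
  have hpos : 0 < (x + 1 / 2) ^ 2 + B := by positivity
  have h1 : AnalyticAt ℝ (fun x : ℝ => (x + 1 / 2) ^ 2 + B) x := by fun_prop
  exact h1.log hpos

end logs

/-! ### The constants -/

noncomputable def w1 : ℝ := 1 / (90 * a₁ ^ 2 + 2)
noncomputable def w2 : ℝ := 45 * a₁ ^ 2 / (90 * a₁ ^ 2 + 2)
noncomputable def B1 : ℝ := (3 * a₁ + 1) / 3 - 1 / 4
noncomputable def B2 : ℝ := (15 * a₁ - 1) / (45 * a₁) - 1 / 4

theorem a_bounds : 0.79 < a₁ ∧ a₁ < 0.8 := by
  have h1 : (14.317 : ℝ) < Real.sqrt 205 := by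
    apply Real.lt_sqrt_of_sq_lt; norm_num
  have h2 : Real.sqrt 205 < 14.32 := by
    rw [Real.sqrt_lt' (by norm_num)]; norm_num
  unfold a₁
  constructor <;> linarith

theorem w_bounds : 0 < w1 ∧ w1 < 0.02 ∧ 0.48 < w2 ∧ w2 < 0.5 := by
  obtain ⟨h1, h2⟩ := a_bounds
  have h3 : 0.6241 < a₁ ^ 2 := by nlinarith
  have hpos : 0 < 90 * a₁ ^ 2 + 2 := by positivity
  unfold w1 w2
  refine ⟨by positivity, ?_, ?_, ?_⟩
  · rw [div_lt_iff₀ hpos]; linarith
  · rw [lt_div_iff₀ hpos]; linarith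
  · rw [div_lt_iff₀ hpos]; linarith

theorem B_bounds : 0 < B1 ∧ 0 < B2 ∧ B2 < 0.06 := by
  obtain ⟨h1, h2⟩ := a_bounds
  have h45 : 0 < 45 * a₁ := by linarith
  unfold B1 B2
  refine ⟨by linarith, ?_, ?_⟩
  · rw [sub_pos, lt_div_iff₀ h45]; linarith
  · rw [sub_lt_iff_lt_add, div_lt_iff₀ h45]; linarith

theorem Lf_eq (x : ℝ) : Lf x a₁ = w1 * f0 B1 x + w2 * f0 B2 x := by
  unfold Lf w1 w2 f0 B1 B2
  congr 3 <;> ring

theorem analyticAt_Lf (x : ℝ) : AnalyticAt ℝ (fun x => Lf x a₁) x := by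
  have h : (fun x => Lf x a₁) = fun x => w1 * f0 B1 x + w2 * f0 B2 x := funext Lf_eq
  rw [h]
  exact (analyticAt_const.mul (analyticAt_f0 B_bounds.1 x)).add
    (analyticAt_const.mul (analyticAt_f0 B_bounds.2.1 x))

theorem iter4_Lf (x : ℝ) : iteratedDeriv 4 (fun x => Lf x a₁) x = w1 * f4 B1 x + w2 * f4 B2 x := by
  have h : (fun x => Lf x a₁) = fun x => w1 * f0 B1 x + w2 * f0 B2 x := funext Lf_eq
  rw [h, iteratedDeriv_fun_add, iteratedDeriv_const_mul_field, iteratedDeriv_const_mul_field,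
    iter4 B_bounds.1, iter4 B_bounds.2.1]
  · exact (analyticAt_const.mul (analyticAt_f0 B_bounds.1 x)).contDiffAt
  · exact (analyticAt_const.mul (analyticAt_f0 B_bounds.2.1 x)).contDiffAt

theorem analyticAt_G (x : ℝ) (hx : -1 < x) : AnalyticAt ℝ G x := by
  unfold G
  apply (analyticAt_Lf x).sub
  have h1 : AnalyticAt ℝ psi (x + 1) := analyticAt_psi (x + 1) (by linarith)
  have h2 : AnalyticAt ℝ (fun x : ℝ => x + 1) x := by fun_prop
  exact AnalyticAt.fun_comp (g := psi) (f := fun x : ℝ => x + 1) (x := x) h1 h2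

/-- the difference `G(x) - G(x + 1)` is elementary -/
theorem G_diff (x : ℝ) (hx : -1 < x) :
    G x - G (x + 1) = Lf x a₁ - Lf (x + 1) a₁ + (x + 1)⁻¹ := by
  unfold G
  rw [psi_add_one (x + 1) (by linarith)]
  ring

theorem iter4_inv : iteratedDeriv 4 (fun x : ℝ => (x + 1)⁻¹) (-1 / 2) = 768 := by
  rw [iteratedDeriv_comp_add_const 4 (fun x : ℝ => x⁻¹) 1]
  show iteratedDeriv 4 (fun x : ℝ => x⁻¹) (-1 / 2 + 1) = 768
  rw [iteratedDeriv_eq_iterate]
  have h := iter_deriv_inv (𝕜 := ℝ) 4 (-1 / 2 + 1)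
  rw [h]
  norm_num [Nat.factorial]

theorem iter4_diff : iteratedDeriv 4 G (-1 / 2) - iteratedDeriv 4 G (1 / 2) < 0 := by
  have e1 : (fun x => G x - G (x + 1)) =ᶠ[𝓝 (-1 / 2)]
      (fun x => Lf x a₁ - Lf (x + 1) a₁ + (x + 1)⁻¹) := by
    filter_upwards [lt_mem_nhds (show (-1 : ℝ) < -1 / 2 by norm_num)] with x hx
    exact G_diff x hx
  have e2 := e1.iteratedDeriv_eq 4
  have c1 : ContDiffAt ℝ 4 G (-1 / 2) := (analyticAt_G _ (by norm_num)).contDiffAt
  have hs : ∀ x : ℝ, AnalyticAt ℝ (fun x : ℝ => x + 1) x := fun x => by fun_prop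
  have c2 : ContDiffAt ℝ 4 (fun x => G (x + 1)) (-1 / 2) :=
    (AnalyticAt.fun_comp (g := G) (f := fun x : ℝ => x + 1) (x := -1 / 2)
      (analyticAt_G (-1 / 2 + 1) (by norm_num)) (hs _)).contDiffAt
  have c3 : AnalyticAt ℝ (fun x => Lf x a₁) (-1 / 2) := analyticAt_Lf _
  have c4 : AnalyticAt ℝ (fun x => Lf (x + 1) a₁) (-1 / 2) :=
    AnalyticAt.fun_comp (g := fun x => Lf x a₁) (f := fun x : ℝ => x + 1) (x := -1 / 2)
      (analyticAt_Lf (-1 / 2 + 1)) (hs _)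
  have c5 : AnalyticAt ℝ (fun x : ℝ => (x + 1)⁻¹) (-1 / 2) := (hs _).inv (by norm_num)
  have c34 : AnalyticAt ℝ (fun x => Lf x a₁ - Lf (x + 1) a₁) (-1 / 2) := c3.sub c4
  rw [iteratedDeriv_fun_sub c1 c2, iteratedDeriv_fun_add c34.contDiffAt c5.contDiffAt,
    iteratedDeriv_fun_sub c3.contDiffAt c4.contDiffAt, iter4_inv, iter4_Lf,
    iteratedDeriv_comp_add_const 4 G 1, iteratedDeriv_comp_add_const 4 (fun x => Lf x a₁) 1] at e2
  have e3 : iteratedDeriv 4 (fun x => Lf x a₁) (-1 / 2 + 1) =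
      w1 * f4 B1 (1 / 2) + w2 * f4 B2 (1 / 2) := by
    rw [iter4_Lf]; norm_num
  have e4 : iteratedDeriv 4 G (-1 / 2 + 1) = iteratedDeriv 4 G (1 / 2) := by norm_num
  simp only [e3, e4] at e2
  rw [e2]
  obtain ⟨hw1, hw1', hw2, hw2'⟩ := w_bounds
  obtain ⟨hB1, hB2, hB2'⟩ := B_bounds
  have g1 : f4 B1 (-1 / 2) ≤ 0 := by
    unfold f4
    apply div_nonpos_of_nonpos_of_nonneg
    · norm_num
      exact sq_nonneg _
    · positivity
  have g2 : f4 B2 (-1 / 2) ≤ -3000 := by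
    unfold f4
    have h1 : (-1 / 2 + 1 / 2 : ℝ) = 0 := by norm_num
    rw [h1, div_le_iff₀ (by positivity)]
    have h2 : B2 ^ 2 ≤ 0.0036 := by nlinarith
    have h3 : 0 < B2 ^ 2 := by positivity
    nlinarith
  have g3 : ∀ B : ℝ, 0 < B → -12 ≤ f4 B (1 / 2) := by
    intro B hB
    unfold f4
    have h1 : (1 / 2 + 1 / 2 : ℝ) = 1 := by norm_num
    rw [h1, le_div_iff₀ (by positivity)]
    have h2 : (1 ^ 2 + B) ^ 4 = 1 + 4 * B + 6 * B ^ 2 + 4 * B ^ 3 + B ^ 4 := by ring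
    rw [h2]
    have h3 : 0 < B ^ 2 := by positivity
    have h4 : 0 < B ^ 3 := by positivity
    have h5 : 0 < B ^ 4 := by positivity
    nlinarith
  have t1 : w1 * f4 B1 (-1 / 2) ≤ 0 := mul_nonpos_of_nonneg_of_nonpos hw1.le g1
  have t2 : w2 * f4 B2 (-1 / 2) ≤ 0.48 * (-3000) := by nlinarith
  have t3 : -12 * w1 ≤ w1 * f4 B1 (1 / 2) := by nlinarith [g3 B1 hB1]
  have t4 : -12 * w2 ≤ w2 * f4 B2 (1 / 2) := by nlinarith [g3 B2 hB2]
  linarith

/-- The function `G(x) = 𝓛(x, a₁) - ψ(x + 1)` is not completely monotonic on `(-1, ∞)`: the sign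
condition fails for `n = 4` at `x = -1/2`, or for `n = 5` at some point of `(-1/2, 1/2)`. -/
theorem result : ∃ n : ℕ, ∃ x : ℝ, -1 < x ∧ (-1) ^ n * iteratedDeriv n G x < 0 := by
  by_contra hcon
  push Not at hcon
  have h4 := iter4_diff
  have hd : ∀ x : ℝ, -1 < x → DifferentiableAt ℝ (iteratedDeriv 4 G) x := by
    intro x hx
    have h1 : AnalyticAt ℝ (iteratedDeriv 4 G) x := by
      rw [iteratedDeriv_eq_iterate]
      exact (analyticAt_G x hx).iterated_deriv 4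
    exact h1.differentiableAt
  obtain ⟨c, hc, hc'⟩ := exists_deriv_eq_slope (iteratedDeriv 4 G)
    (show (-1 / 2 : ℝ) < 1 / 2 by norm_num)
    (fun x hx => (hd x (by linarith [hx.1])).continuousAt.continuousWithinAt)
    (fun x hx => (hd x (by linarith [hx.1])).differentiableWithinAt)
  have h5 := hcon 5 c (by linarith [hc.1])
  rw [iteratedDeriv_succ, hc'] at h5
  norm_num at h5
  linarith

end Pool.Agent.Results.MP_d2a7e5_an.NotCompletelyMonotonic
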